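import Pool.Agent.Lib.MP_a0a351_co.RangesCore

/-!
Reay's relaxed Tverberg conjecture (dimension of the set of Tverberg points), for points in
general position: `k = 1` for all `d` and `r`, and all `k` in an explicit range of `d, r, k`.

Proof of `k = 1`: the set of Tverberg points of at least `(d + 1)(r - 1) + 2` points is connected
(a connected version of the colourful Caratheodory theorem); if it had dimension `0` it would be one
point `o`, also after rescaling the points about `o`, which excludes conic solutions at `o`; then
greedily chosen circuits have total excess at least `2 d`, and the LP lemma excludes this.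
All `k`: maximise the dimension of the intersection of the linear spans of the parts of a Tverberg
partition into circuits; in case of a failure apply the LP lemma to every part.
-/

set_option autoImplicit false

open Module

namespace Pool.Agent.Results.MP_a0a351_co.Ranges

/-- Any `(d+1)(r-1)+1+k` points of `ℝ^d` in general position (`k ≤ d`) can be split into `r` parts
whose convex hulls share `k + 1` affinely independent points, provided `k = 1`, or `r ≤ 5`, or
`r ≤ 7` and `k ≠ d - 2`, or `r ≤ 9` and `k = d`, or `(r - 2)^2 < 4 (d - k + 2)`, or, more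
generally, `r c < 2 (d - e)` for all `c ≥ 1` and `e < k` with `c + e ≤ d` which satisfy
`(d + k - 2 e - c) c (c + 1) ≤ (d - e + 1 - c) (d - e - c)`. -/
theorem result :
    ∀ (d r k n : ℕ), 1 ≤ r → k ≤ d → n = (d + 1) * (r - 1) + 1 + k →
      (k = 1 ∨ r ≤ 5 ∨ (r ≤ 7 ∧ k + 2 ≠ d) ∨ (r ≤ 9 ∧ k = d) ∨ (r - 2) ^ 2 < 4 * (d - k + 2) ∨
        ∀ c e : ℕ, 1 ≤ c → e < k → c + e ≤ d →
          ((d : ℤ) + k - 2 * e - c) * (c * (c + 1)) ≤ ((d : ℤ) - e + 1 - c) * (d - e - c) →
            (r : ℤ) * c < 2 * (d - e)) →
      ∀ p : Fin n → EuclideanSpace ℝ (Fin d),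
        (∀ s : Finset (Fin n), s.card ≤ d + 1 →
          AffineIndependent ℝ (fun i : s => p (i : Fin n))) →
        ∃ f : Fin n → Fin r, ∃ q : Fin (k + 1) → EuclideanSpace ℝ (Fin d),
          AffineIndependent ℝ q ∧
          ∀ j : Fin (k + 1), ∀ i : Fin r,
            q j ∈ convexHull ℝ (p '' {m : Fin n | f m = i}) :=
  Pool.Agent.MPa0a351.ranges_main

end Pool.Agent.Results.MP_a0a351_co.Ranges
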